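import Mathlib
import Pool.Agent.R528.RM.BHOut

/-!
# Self powers in sequential random sets (helper618)
-/

set_option autoImplicit false
set_option linter.unusedSectionVars false

open MeasureTheory Filter
open scoped Topology

namespace Pool.Agent.U618.SP

open Pool.Agent.R528.RM

/-- `(n + 1) ^ (n + 1) + 1` -/
def N (n : ℕ) : ℕ := (n + 1) ^ (n + 1) + 1

theorem N_lt (n : ℕ) : N n < N (n + 1) := by
  unfold N
  have h1 : (n + 1) ^ (n + 1) ≤ (n + 1 + 1) ^ (n + 1) := Nat.pow_le_pow_left (Nat.le_succ _) _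
  have h2 : (n + 1 + 1) ^ (n + 1) < (n + 1 + 1) ^ (n + 1 + 1) :=
    Nat.pow_lt_pow_right (by omega) (Nat.lt_succ_self _)
  omega

theorem N_mono : StrictMono N := strictMono_nat_of_lt_succ N_lt

open Classical in
/-- the expected number of the chosen `m ^ m + 1` with `m ≤ x`, `m` in `E` -/
noncomputable def mean (ρ : ℕ → ℝ) (E : Set ℕ) (x : ℕ) : ℝ :=
  ∑ m ∈ (Finset.Icc 1 x).filter (fun m => m ∈ E), ρ (m ^ m + 1)

/-- the number of the chosen `m ^ m + 1` with `1 ≤ m ≤ x`, `m` in `E` -/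
noncomputable def cnt (A : Set ℕ) (E : Set ℕ) (x : ℕ) : ℕ :=
  {m : ℕ | 1 ≤ m ∧ m ≤ x ∧ m ∈ E ∧ m ^ m + 1 ∈ A}.ncard

open Classical in
theorem mean_eq (ρ : ℕ → ℝ) (E : Set ℕ) (x : ℕ) :
    mean ρ E x = ∑ n ∈ Finset.range x, if n + 1 ∈ E then ρ (N n) else 0 := by
  unfold mean
  rw [Finset.sum_filter]
  induction x with
  | zero => simp
  | succ x ih =>
    rw [Finset.sum_Icc_succ_top (by omega), ih, Finset.sum_range_succ]
    rfl

theorem cnt_eq (A : Set ℕ) (E : Set ℕ) (x : ℕ) :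
    cnt A E x = {n : ℕ | n < x ∧ n + 1 ∈ E ∧ N n ∈ A}.ncard := by
  unfold cnt
  rw [← Set.ncard_image_of_injective {n : ℕ | n < x ∧ n + 1 ∈ E ∧ N n ∈ A} Nat.succ_injective]
  congr 1
  ext m
  simp only [Set.mem_ofPred_eq, Set.mem_image]
  constructor
  · rintro ⟨h1, h2, h3, h4⟩
    obtain ⟨n, rfl⟩ : ∃ n, m = n + 1 := ⟨m - 1, by omega⟩
    exact ⟨n, ⟨by omega, h3, h4⟩, rfl⟩
  · rintro ⟨n, ⟨h1, h2, h3⟩, rfl⟩
    exact ⟨by simp, by simpa [Nat.succ_eq_add_one] using h1, h2, h3⟩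

variable {Ω : Type} {m0 : MeasurableSpace Ω} {μ : Measure Ω} [IsProbabilityMeasure μ]
  {ℱ : Filtration ℕ m0} {A : ℕ → Set Ω}

/-- Borel-Cantelli for adapted sets, convergence part -/
theorem bc (hA : ∀ n, MeasurableSet[ℱ n] (A n)) (r : ℕ → ℝ) (hr : ∀ n, 0 ≤ r n) (hs : Summable r)
    (h : ∀ᵐ ω ∂μ, ∀ᶠ n : ℕ in atTop, dens μ ℱ A n ω ≤ r (n + 1)) :
    ∀ᵐ ω ∂μ, {n : ℕ | ω ∈ A n}.Finite := by
  filter_upwards [ae_mem_limsup_atTop_iff μ hA, h] with ω h1 h2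
  by_contra hinf
  have h3 : ω ∈ limsup A atTop := by
    rw [limsup_eq_iInf_iSup_of_nat]
    simp only [Set.iInf_eq_iInter, Set.iSup_eq_iUnion, Set.mem_iInter, Set.mem_iUnion]
    intro n
    obtain ⟨m, hm, hnm⟩ := (Set.not_finite.1 hinf).exists_gt n
    exact ⟨m, hnm.le, hm⟩
  have h4 := h1.1 h3
  obtain ⟨n₀, hn₀⟩ := eventually_atTop.1 h2
  have h5 : ∀ n, n₀ ≤ n → ∑ k ∈ Finset.range n,
      (μ[(A (k + 1)).indicator (1 : Ω → ℝ) | ℱ k]) ω ≤
      (∑ k ∈ Finset.range n₀, (μ[(A (k + 1)).indicator (1 : Ω → ℝ) | ℱ k]) ω) + ∑' k, r (k + 1) := by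
    intro n hn
    have hs' : Summable fun k => r (k + 1) := (summable_nat_add_iff 1).2 hs
    rw [← Finset.sum_range_add_sum_Ico _ hn]
    refine add_le_add le_rfl ?_
    calc ∑ k ∈ Finset.Ico n₀ n, (μ[(A (k + 1)).indicator (1 : Ω → ℝ) | ℱ k]) ω
        ≤ ∑ k ∈ Finset.Ico n₀ n, r (k + 1) :=
          Finset.sum_le_sum fun k hk => hn₀ k (Finset.mem_Ico.1 hk).1
      _ ≤ ∑' k, r (k + 1) := hs'.sum_le_tsum _ fun k _ => hr _
  obtain ⟨n, hn⟩ := ((tendsto_atTop.1 h4 ((∑ k ∈ Finset.range n₀,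
    (μ[(A (k + 1)).indicator (1 : Ω → ℝ) | ℱ k]) ω) + ∑' k, r (k + 1) + 1)).and
      (eventually_ge_atTop n₀)).exists
  have := h5 n hn.2
  linarith [hn.1]

/-- the indices `N n` with `n + 1` in `E` -/
def NE (E : Set ℕ) : Set ℕ := {m | ∃ n, n + 1 ∈ E ∧ N n = m}

theorem mem_NE {E : Set ℕ} {n : ℕ} : N n ∈ NE E ↔ n + 1 ∈ E := by
  constructor
  · rintro ⟨k, hk, h⟩
    rwa [N_mono.injective h] at hk
  · intro h
    exact ⟨n, h, rfl⟩

open Classical in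
/-- the restricted events -/
def AE (A : ℕ → Set Ω) (E : Set ℕ) (m : ℕ) : Set Ω := if m ∈ NE E then A m else ∅

theorem AE_meas (hA : ∀ n, MeasurableSet[ℱ n] (A n)) (E : Set ℕ) (n : ℕ) :
    MeasurableSet[ℱ n] (AE A E n) := by
  unfold AE
  split_ifs
  · exact hA n
  · exact @MeasurableSet.empty Ω (ℱ n)

theorem dens_AE_of {E : Set ℕ} {n : ℕ} (h : n + 1 ∈ NE E) : dens μ ℱ (AE A E) n = dens μ ℱ A n := by
  unfold dens AE
  rw [if_pos h]

theorem dens_AE_zero {E : Set ℕ} : ∀ᵐ ω ∂μ, ∀ n, n + 1 ∉ NE E → dens μ ℱ (AE A E) n ω = 0 := by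
  rw [ae_all_iff]
  intro n
  by_cases h : n + 1 ∈ NE E
  · exact Eventually.of_forall fun ω h' => absurd h h'
  · have e : dens μ ℱ (AE A E) n = 0 := by
      unfold dens AE
      rw [if_neg h, Set.indicator_empty]
      exact condExp_zero
    exact Eventually.of_forall fun ω _ => by rw [e]; rfl

open Classical in
/-- finitely many, if the expected number is bounded -/
theorem fin_E (hA : ∀ n, MeasurableSet[ℱ n] (A n)) (ρ : ℕ → ℝ) (hρ : ∀ n, 0 ≤ ρ n) (C : ℝ) (hC : 0 ≤ C)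
    (hd : ∀ᵐ ω ∂μ, ∀ᶠ n : ℕ in atTop, dens μ ℱ A n ω ≤ C * ρ (n + 1)) (E : Set ℕ) (B : ℝ)
    (hB : ∀ x, mean ρ E x ≤ B) : ∀ᵐ ω ∂μ, {m : ℕ | 1 ≤ m ∧ m ∈ E ∧ ω ∈ A (m ^ m + 1)}.Finite := by
  set r : ℕ → ℝ := fun m => if m ∈ NE E then C * ρ m else 0 with hr
  have hr0 : ∀ m, 0 ≤ r m := by
    intro m
    simp only [hr]
    split_ifs
    · exact mul_nonneg hC (hρ m)
    · exact le_rfl
  have hB0 : 0 ≤ B := by
    have := hB 0
    unfold mean at this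
    simpa using this
  have hsum : Summable r := by
    refine summable_of_sum_range_le (c := C * B) hr0 fun X => ?_
    have h1 : ∑ m ∈ Finset.range X, r m = ∑ m ∈ (Finset.range X).filter (fun m => m ∈ NE E), C * ρ m := by
      rw [Finset.sum_filter]
    have h2 : (Finset.range X).filter (fun m => m ∈ NE E) ⊆
        ((Finset.range X).filter (fun n => n + 1 ∈ E)).image N := by
      intro m hm
      rw [Finset.mem_filter, Finset.mem_range] at hm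
      obtain ⟨hmX, n, hn, rfl⟩ := hm
      refine Finset.mem_image.2 ⟨n, Finset.mem_filter.2 ⟨Finset.mem_range.2 ?_, hn⟩, rfl⟩
      exact lt_of_le_of_lt (N_mono.id_le n) hmX
    rw [h1]
    calc ∑ m ∈ (Finset.range X).filter (fun m => m ∈ NE E), C * ρ m
        ≤ ∑ m ∈ ((Finset.range X).filter (fun n => n + 1 ∈ E)).image N, C * ρ m :=
          Finset.sum_le_sum_of_subset_of_nonneg h2 fun m _ _ => mul_nonneg hC (hρ m)
      _ = ∑ n ∈ (Finset.range X).filter (fun n => n + 1 ∈ E), C * ρ (N n) :=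
          Finset.sum_image fun a _ b _ h => N_mono.injective h
      _ = C * mean ρ E X := by
          rw [mean_eq, Finset.mul_sum, Finset.sum_filter]
          refine Finset.sum_congr rfl fun n _ => ?_
          split_ifs <;> simp
      _ ≤ C * B := mul_le_mul_of_nonneg_left (hB X) hC
  have hd' : ∀ᵐ ω ∂μ, ∀ᶠ n : ℕ in atTop, dens μ ℱ (AE A E) n ω ≤ r (n + 1) := by
    filter_upwards [hd, dens_AE_zero (μ := μ) (ℱ := ℱ) (A := A) (E := E)] with ω h1 h2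
    filter_upwards [h1] with n hn
    simp only [hr]
    by_cases h : n + 1 ∈ NE E
    · rw [if_pos h, dens_AE_of h]
      exact hn
    · rw [if_neg h, h2 n h]
  filter_upwards [bc (AE_meas hA E) r hr0 hsum hd'] with ω hω
  have h3 : {n : ℕ | n + 1 ∈ E ∧ ω ∈ A (N n)} ⊆ N ⁻¹' {m | ω ∈ AE A E m} := by
    rintro n ⟨h4, h5⟩
    show ω ∈ AE A E (N n)
    unfold AE
    rw [if_pos (mem_NE.2 h4)]
    exact h5
  have h4 : {n : ℕ | n + 1 ∈ E ∧ ω ∈ A (N n)}.Finite :=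
    (hω.preimage N_mono.injective.injOn).subset h3
  refine (h4.image Nat.succ).subset ?_
  rintro m ⟨h5, h6, h7⟩
  obtain ⟨n, rfl⟩ : ∃ n, m = n + 1 := ⟨m - 1, by omega⟩
  exact ⟨n, ⟨h6, h7⟩, rfl⟩

open Classical in
/-- the law of large numbers -/
theorem law_E (hA : ∀ n, MeasurableSet[ℱ n] (A n)) (ρ : ℕ → ℝ) (hρ : ∀ n, 0 ≤ ρ n ∧ ρ n ≤ 1)
    (hd : ∀ᵐ ω ∂μ, ∀ ε : ℝ, 0 < ε → ∀ᶠ n : ℕ in atTop,
      |dens μ ℱ A n ω - ρ (n + 1)| ≤ ε * ρ (n + 1)) (E : Set ℕ)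
    (hE : Tendsto (mean ρ E) atTop atTop) :
    ∀ᵐ ω ∂μ, Tendsto (fun x => (cnt {a | ω ∈ A a} E x : ℝ) / mean ρ E x) atTop (𝓝 1) := by
  set r : ℕ → ℝ := fun m => if m ∈ NE E then ρ m else 0 with hr
  have hr0 : ∀ m, 0 ≤ r m ∧ r m ≤ 1 := by
    intro m
    simp only [hr]
    split_ifs
    · exact hρ m
    · exact ⟨le_rfl, zero_le_one⟩
  have hd' : ∀ᵐ ω ∂μ, ∀ ε : ℝ, 0 < ε → ∀ᶠ n : ℕ in atTop,
      |dens μ ℱ (AE A E) n ω - r (n + 1)| ≤ ε * r (n + 1) := by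
    filter_upwards [hd, dens_AE_zero (μ := μ) (ℱ := ℱ) (A := A) (E := E)] with ω h1 h2 ε hε
    filter_upwards [h1 ε hε] with n hn
    simp only [hr]
    by_cases h : n + 1 ∈ NE E
    · rw [if_pos h, dens_AE_of h]
      exact hn
    · rw [if_neg h, h2 n h]
      simp
  have hrN : ∀ n, r (N n) = if n + 1 ∈ E then ρ (N n) else 0 := by
    intro n
    simp only [hr, mem_NE]
  have hsum : ∀ x, ∑ n ∈ Finset.range x, ∏ i ∈ ({()} : Finset Unit), r ((fun (_ : Unit) n => N n) i n) =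
      mean ρ E x := by
    intro x
    rw [mean_eq]
    refine Finset.sum_congr rfl fun n _ => ?_
    simp only [Finset.prod_singleton, hrN]
  have h1 := general_final (μ := μ) (AE_meas hA E) r hr0 hd' ({()} : Finset Unit)
    (fun _ n => N n) (fun _ _ => Eventually.of_forall fun n => N_lt n)
    (fun i _ j _ hij => absurd (Subsingleton.elim i j) hij) (by simp only [hsum]; exact hE)
  filter_upwards [h1] with ω hω
  refine hω.congr fun x => ?_
  rw [hsum, cnt_eq]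
  congr 3
  ext n
  simp only [Finset.mem_singleton, Set.mem_ofPred_eq]
  constructor
  · rintro ⟨h2, h3⟩
    have h4 := h3 () trivial
    unfold AE at h4
    by_cases h5 : N n ∈ NE E
    · rw [if_pos h5] at h4
      exact ⟨h2, mem_NE.1 h5, h4⟩
    · rw [if_neg h5] at h4
      exact absurd h4 (Set.notMem_empty ω)
  · rintro ⟨h2, h3, h4⟩
    refine ⟨h2, fun _ _ => ?_⟩
    unfold AE
    rw [if_pos (mem_NE.2 h3)]
    exact h4

theorem cnt_mono (A : Set ℕ) (E : Set ℕ) (hf : {m : ℕ | 1 ≤ m ∧ m ∈ E ∧ m ^ m + 1 ∈ A}.Finite) (x : ℕ) :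
    cnt A E x ≤ {m : ℕ | 1 ≤ m ∧ m ∈ E ∧ m ^ m + 1 ∈ A}.ncard :=
  Set.ncard_le_ncard (fun _ hm => ⟨hm.1, hm.2.2.1, hm.2.2.2⟩) hf

/-- infinitely many -/
theorem inf_of_law {ρ : ℕ → ℝ} {A E : Set ℕ} (hE : Tendsto (mean ρ E) atTop atTop)
    (h : Tendsto (fun x => (cnt A E x : ℝ) / mean ρ E x) atTop (𝓝 1)) :
    {m : ℕ | 1 ≤ m ∧ m ∈ E ∧ m ^ m + 1 ∈ A}.Infinite := by
  intro hf
  have h0 : Tendsto (fun x => (cnt A E x : ℝ) / mean ρ E x) atTop (𝓝 0) := by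
    refine squeeze_zero' ?_ ?_ (hE.const_div_atTop
      ({m : ℕ | 1 ≤ m ∧ m ∈ E ∧ m ^ m + 1 ∈ A}.ncard : ℝ))
    · filter_upwards [hE.eventually_gt_atTop 0] with x hx
      positivity
    · filter_upwards [hE.eventually_gt_atTop 0] with x hx
      apply div_le_div_of_nonneg_right _ hx.le
      exact_mod_cast cnt_mono A E hf x
  exact one_ne_zero (tendsto_nhds_unique h h0)

end Pool.Agent.U618.SP
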