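import Mathlib
import Pool.Agent.U618.SP.Mod

/-!
# Self powers in sequential random sets: the two profiles (helper618)
-/

set_option autoImplicit false
set_option linter.unusedSectionVars false

open MeasureTheory Filter
open scoped Topology

namespace Pool.Agent.U618.SP

open Pool.Agent.R528.RM

open Classical in
/-- the profile of the sieve by `Q` -/
noncomputable def prof (Q : Finset ℕ) (m : ℕ) : ℝ :=
  if ∀ p ∈ Q, ¬ p ∣ m then min 1 ((∏ p ∈ Q, (1 - 1 / (p : ℝ))⁻¹) / Real.log m) else 0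

theorem W_one {Q : Finset ℕ} (hQ : ∀ p ∈ Q, p.Prime) : 1 ≤ ∏ p ∈ Q, (1 - 1 / (p : ℝ))⁻¹ := by
  refine Finset.prod_induction _ (fun x => 1 ≤ x)
    (fun a b ha hb => one_le_mul_of_one_le_of_one_le ha hb) le_rfl fun p hp => ?_
  have h2 : (2 : ℝ) ≤ p := by exact_mod_cast (hQ p hp).two_le
  have h3 : (0 : ℝ) < 1 - 1 / (p : ℝ) := by
    rw [sub_pos, div_lt_one (by linarith)]
    linarith
  rw [one_le_inv₀ h3]
  have : (0 : ℝ) ≤ 1 / (p : ℝ) := by positivity
  linarith

theorem prof_nonneg {Q : Finset ℕ} (hQ : ∀ p ∈ Q, p.Prime) (m : ℕ) : 0 ≤ prof Q m := by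
  unfold prof
  split_ifs
  · exact le_min zero_le_one (div_nonneg (by linarith [W_one hQ]) (Real.log_natCast_nonneg m))
  · exact le_rfl

/-- lower bound at multiples -/
theorem prof_low {Q : Finset ℕ} (hQ : ∀ p ∈ Q, p.Prime) (j : ℕ) (hj : 2 ≤ (∏ p ∈ Q, p) * j) :
    1 / (2 * (((∏ p ∈ Q, p) * j : ℕ) : ℝ) * Real.log (((∏ p ∈ Q, p) * j : ℕ) : ℝ)) ≤
      prof Q (((∏ p ∈ Q, p) * j) ^ ((∏ p ∈ Q, p) * j) + 1) := by
  set m := (∏ p ∈ Q, p) * j with hm
  have hfree : ∀ p ∈ Q, ¬ p ∣ m ^ m + 1 := by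
    intro p hp h
    have h1 : p ∣ m := (Finset.dvd_prod_of_mem (fun p => p) hp).mul_right j
    have h2 : p ∣ m ^ m := h1.trans (dvd_pow_self m (by omega))
    have h3 : p ∣ 1 := (Nat.dvd_add_right h2).1 h
    exact (hQ p hp).one_lt.ne' (Nat.dvd_one.1 h3)
  unfold prof
  rw [if_pos hfree]
  have hm2 : (2 : ℝ) ≤ m := by exact_mod_cast hj
  have hlm : Real.log 2 ≤ Real.log m := Real.log_le_log (by norm_num) hm2
  have hl2 : (1 / 2 : ℝ) < Real.log 2 := by
    have := Real.log_two_gt_d9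
    linarith
  have hD : (1 : ℝ) ≤ 2 * (m : ℝ) * Real.log m := by nlinarith
  refine le_min ?_ ?_
  · rw [div_le_one (by linarith)]
    exact hD
  · have hN : ((m ^ m + 1 : ℕ) : ℝ) ≤ (m : ℝ) ^ (2 * m) := by
      have h1 : m ^ m + 1 ≤ m ^ (2 * m) := by
        have h2 : 1 ≤ m ^ m := Nat.one_le_pow _ _ (by omega)
        have h3 : 2 ≤ m ^ m := le_trans hj (Nat.le_self_pow (by omega) m)
        have h4 : m ^ (2 * m) = m ^ m * m ^ m := by rw [two_mul, pow_add]
        rw [h4]
        nlinarith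
      exact_mod_cast h1
    have hN1 : (1 : ℝ) < ((m ^ m + 1 : ℕ) : ℝ) := by
      have : 1 ≤ m ^ m := Nat.one_le_pow _ _ (by omega)
      exact_mod_cast (by omega : 1 < m ^ m + 1)
    have hlog : Real.log ((m ^ m + 1 : ℕ) : ℝ) ≤ 2 * (m : ℝ) * Real.log m := by
      calc Real.log ((m ^ m + 1 : ℕ) : ℝ) ≤ Real.log ((m : ℝ) ^ (2 * m)) :=
            Real.log_le_log (by linarith) hN
        _ = 2 * (m : ℝ) * Real.log m := by
            rw [Real.log_pow]
            push_cast
            ring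
    exact div_le_div₀ (by linarith [W_one hQ]) (W_one hQ) (Real.log_pos hN1) hlog

/-- a divergent series -/
theorem div_series (P : ℕ) (hP : 1 ≤ P) :
    ¬ Summable fun j : ℕ => 1 / (2 * ((P * (j + 1) : ℕ) : ℝ) * Real.log ((P * (j + 1) : ℕ) : ℝ)) := by
  have hP' : (1 : ℝ) ≤ P := by exact_mod_cast hP
  have hlog0 : ∀ j : ℕ, 0 ≤ Real.log ((P * (j + 1) : ℕ) : ℝ) := fun j => Real.log_natCast_nonneg _
  rw [← summable_condensed_iff_of_nonneg]
  · intro hs
    have h1 : Summable fun k : ℕ => 1 / (4 * (P : ℝ) * (P + 1)) * (1 / ((k : ℝ) + 1)) := by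
      refine Summable.of_nonneg_of_le (fun k => by positivity) (fun k => ?_) hs
      have e2 : ((P * (2 ^ k + 1) : ℕ) : ℝ) = P * (2 ^ k + 1) := by push_cast; ring
      rw [e2]
      have hk1 : (1 : ℝ) ≤ 2 ^ k := one_le_pow₀ (by norm_num)
      have hx : (1 : ℝ) < P * (2 ^ k + 1) := by nlinarith
      have hl1 : 0 < Real.log (P * (2 ^ k + 1)) := Real.log_pos hx
      have hl2 : Real.log (P * (2 ^ k + 1)) ≤ (P + 1) * (k + 1) := by
        calc Real.log (P * (2 ^ k + 1)) ≤ Real.log (P * 2 ^ (k + 1)) := by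
              apply Real.log_le_log (by linarith)
              rw [pow_succ]
              nlinarith
          _ = Real.log P + (k + 1) * Real.log 2 := by
              rw [Real.log_mul (by positivity) (by positivity), Real.log_pow]
              push_cast
              ring
          _ ≤ P + (k + 1) * 1 := by
              have h3 : Real.log P ≤ P := (Real.log_le_self (by linarith))
              have h4 : Real.log 2 ≤ 1 := by
                have := Real.log_two_lt_d9
                linarith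
              have h5 : (0 : ℝ) ≤ (k : ℝ) + 1 := by positivity
              nlinarith
          _ ≤ (P + 1) * (k + 1) := by
              have h5 : (0 : ℝ) ≤ (k : ℝ) := Nat.cast_nonneg k
              nlinarith
      rw [← one_div_mul_one_div_rev, one_div_mul_one_div_rev, one_div_mul_one_div_rev]
      rw [mul_one_div, div_le_div_iff₀ (by positivity) (by positivity)]
      have h6 : (2 : ℝ) ^ k + 1 ≤ 2 * 2 ^ k := by linarith
      have h7 : 2 * (P * (2 ^ k + 1)) * Real.log (P * (2 ^ k + 1)) ≤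
          2 * (P * (2 * 2 ^ k)) * ((P + 1) * (k + 1)) := by
        gcongr
      nlinarith
    have h2 : Summable fun k : ℕ => 1 / ((k : ℝ) + 1) :=
      (summable_mul_left_iff (by positivity)).1 h1
    refine Real.not_summable_one_div_natCast ((summable_nat_add_iff 1).1 ?_)
    refine h2.congr fun k => ?_
    push_cast
    rfl
  · intro n
    have := hlog0 n
    positivity
  · intro a b ha hab
    have ha1 : (1 : ℝ) ≤ a := by exact_mod_cast ha
    have hab' : (a : ℝ) ≤ b := by exact_mod_cast hab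
    have e1 : ((P * (a + 1) : ℕ) : ℝ) = P * (a + 1) := by push_cast; ring
    have e2 : ((P * (b + 1) : ℕ) : ℝ) = P * (b + 1) := by push_cast; ring
    rw [e1, e2]
    have hx : (1 : ℝ) < P * (a + 1) := by nlinarith
    have hxy : (P : ℝ) * (a + 1) ≤ P * (b + 1) := by nlinarith
    have hl : 0 < Real.log (P * (a + 1)) := Real.log_pos hx
    have hl' : Real.log (P * (a + 1)) ≤ Real.log (P * (b + 1)) := Real.log_le_log (by linarith) hxy
    apply one_div_le_one_div_of_le
    · positivity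
    · gcongr

theorem prof_div {Q : Finset ℕ} (hQ : ∀ p ∈ Q, p.Prime) :
    Tendsto (mean (prof Q) Set.univ) atTop atTop := by
  have h0 : ∀ x, mean (prof Q) Set.univ x = ∑ n ∈ Finset.range x, prof Q (N n) := by
    intro x
    rw [mean_eq]
    simp
  rw [show mean (prof Q) Set.univ = fun x => ∑ n ∈ Finset.range x, prof Q (N n) from funext h0]
  rw [← not_summable_iff_tendsto_nat_atTop_of_nonneg fun n => prof_nonneg hQ _]
  intro hs
  set P := ∏ p ∈ Q, p with hPdef
  have hP : 1 ≤ P := Nat.one_le_iff_ne_zero.2 (Finset.prod_ne_zero_iff.2 fun p hp => (hQ p hp).ne_zero)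
  apply div_series P hP
  rw [← summable_nat_add_iff 1]
  have hinj : Function.Injective fun j : ℕ => P * (j + 1 + 1) - 1 := by
    intro a b hab
    have h1 : P * (a + 1 + 1) - 1 = P * (b + 1 + 1) - 1 := hab
    have h2 : 1 ≤ P * (a + 1 + 1) := by nlinarith
    have h3 : 1 ≤ P * (b + 1 + 1) := by nlinarith
    have h4 : P * (a + 1 + 1) = P * (b + 1 + 1) := by omega
    have h5 := Nat.eq_of_mul_eq_mul_left (by omega) h4
    omega
  refine Summable.of_nonneg_of_le (fun j => ?_) (fun j => ?_) (hs.comp_injective hinj)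
  · have := Real.log_natCast_nonneg (P * (j + 1 + 1))
    positivity
  · have h2 : 2 ≤ P * (j + 1 + 1) := by nlinarith
    have h := prof_low hQ (j + 1 + 1) h2
    refine le_trans h (le_of_eq ?_)
    simp only [Function.comp, N]
    rw [Nat.sub_add_cancel (show 1 ≤ P * (j + 1 + 1) from le_trans (by norm_num) h2)]

/-- the only candidates -/
def T : Set ℕ := Set.range fun k : ℕ => 2 ^ 2 ^ k

theorem pow_form {m : ℕ} (hm : 2 ≤ m) (hT : m ∉ T) :
    ∃ a q : ℕ, 2 ≤ a ∧ Odd q ∧ 3 ≤ q ∧ m ^ m = a ^ q := by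
  have key : ∀ n : ℕ, 1 ≤ n → (∀ k, n ≠ 2 ^ k) → ∃ q t, Odd q ∧ 3 ≤ q ∧ n = t * q := by
    intro n hn h
    obtain ⟨k, q, hq, hnk⟩ := Nat.exists_eq_two_pow_mul_odd (n := n) (by omega)
    refine ⟨q, 2 ^ k, hq, ?_, hnk⟩
    obtain ⟨r, hr⟩ := hq
    rcases Nat.eq_zero_or_pos r with h0 | h0
    · exact absurd (by rw [hnk, hr, h0]; simp) (h k)
    · omega
  by_cases h : ∃ s, m = 2 ^ s
  · obtain ⟨s, rfl⟩ := h
    have hs : 1 ≤ s := by
      rcases Nat.eq_zero_or_pos s with h0 | h0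
      · rw [h0] at hm
        norm_num at hm
      · exact h0
    obtain ⟨q, t, hq, hq3, hst⟩ := key s hs (by
      intro k hk
      exact hT ⟨k, by rw [hk]⟩)
    refine ⟨2 ^ (t * 2 ^ s), q, ?_, hq, hq3, ?_⟩
    · have ht : t ≠ 0 := by
        rintro rfl
        omega
      exact Nat.le_self_pow (by positivity) 2
    · rw [← pow_mul, ← pow_mul]
      congr 1
      calc s * 2 ^ s = (t * q) * 2 ^ s := by rw [← hst]
        _ = t * 2 ^ s * q := by ring
  · push Not at h
    obtain ⟨q, t, hq, hq3, hst⟩ := key m (by omega) h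
    refine ⟨m ^ t, q, ?_, hq, hq3, ?_⟩
    · have ht : t ≠ 0 := by
        rintro rfl
        omega
      exact le_trans hm (Nat.le_self_pow ht m)
    · rw [← pow_mul, ← hst]

open Classical in
theorem T_bdd (c : ℝ) (hc : 0 < c) (x : ℕ) :
    mean (fun m => (Real.log m) ^ (-c)) T x ≤ ∑' k : ℕ, ((2 : ℝ) ^ (-c)) ^ k := by
  have hq1 : (2 : ℝ) ^ (-c) < 1 := Real.rpow_lt_one_of_one_lt_of_neg (by norm_num) (by linarith)
  have hq0 : (0 : ℝ) ≤ (2 : ℝ) ^ (-c) := by positivity
  have hsub : (Finset.Icc 1 x).filter (fun m => m ∈ T) ⊆ (Finset.range x).image fun k => 2 ^ 2 ^ k := by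
    intro m hm
    rw [Finset.mem_filter, Finset.mem_Icc] at hm
    obtain ⟨⟨_, h2⟩, k, rfl⟩ := hm
    refine Finset.mem_image.2 ⟨k, Finset.mem_range.2 ?_, rfl⟩
    have h3 : k < 2 ^ k := Nat.lt_two_pow_self
    have h4 : 2 ^ k < 2 ^ 2 ^ k := Nat.lt_two_pow_self
    simp only at h2
    omega
  unfold mean
  calc ∑ m ∈ (Finset.Icc 1 x).filter (fun m => m ∈ T), (Real.log ((m ^ m + 1 : ℕ) : ℝ)) ^ (-c)
      ≤ ∑ m ∈ (Finset.range x).image (fun k => 2 ^ 2 ^ k), (Real.log ((m ^ m + 1 : ℕ) : ℝ)) ^ (-c) :=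
        Finset.sum_le_sum_of_subset_of_nonneg hsub fun m _ _ =>
          Real.rpow_nonneg (Real.log_natCast_nonneg _) _
    _ = ∑ k ∈ Finset.range x, (Real.log (((2 ^ 2 ^ k) ^ (2 ^ 2 ^ k) + 1 : ℕ) : ℝ)) ^ (-c) := by
        refine Finset.sum_image fun a _ b _ h => ?_
        exact Nat.pow_right_injective le_rfl (Nat.pow_right_injective le_rfl h)
    _ ≤ ∑ k ∈ Finset.range x, ((2 : ℝ) ^ (-c)) ^ k := by
        refine Finset.sum_le_sum fun k _ => ?_
        have h1 : ((2 : ℝ) ^ (-c)) ^ k = ((2 : ℝ) ^ k) ^ (-c) := by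
          rw [← Real.rpow_natCast, ← Real.rpow_natCast, ← Real.rpow_mul (by norm_num),
            ← Real.rpow_mul (by norm_num), mul_comm]
        rw [h1]
        apply Real.rpow_le_rpow_of_nonpos (by positivity) _ (by linarith)
        have h2 : (2 : ℝ) ^ (2 ^ k * 2 ^ 2 ^ k) ≤ (((2 ^ 2 ^ k) ^ (2 ^ 2 ^ k) + 1 : ℕ) : ℝ) := by
          push_cast
          rw [pow_mul]
          linarith
        have h3 := Real.log_le_log (by positivity) h2
        rw [Real.log_pow] at h3
        push_cast at h3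
        have h4 : (2 : ℝ) ≤ 2 ^ 2 ^ k := by
          calc (2 : ℝ) = 2 ^ 1 := by norm_num
            _ ≤ 2 ^ 2 ^ k := pow_le_pow_right₀ (by norm_num) Nat.one_le_two_pow
        have h5 : (1 / 2 : ℝ) < Real.log 2 := by
          have := Real.log_two_gt_d9
          linarith
        have h6 : (1 : ℝ) ≤ 2 ^ 2 ^ k * Real.log 2 := by nlinarith
        have h7 : (0 : ℝ) < 2 ^ k := by positivity
        push_cast
        calc (2 : ℝ) ^ k = 2 ^ k * 1 := by ring
          _ ≤ 2 ^ k * (2 ^ 2 ^ k * Real.log 2) := by gcongr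
          _ = 2 ^ k * 2 ^ 2 ^ k * Real.log 2 := by ring
          _ ≤ _ := h3
    _ ≤ ∑' k : ℕ, ((2 : ℝ) ^ (-c)) ^ k :=
        (summable_geometric_of_lt_one hq0 hq1).sum_le_tsum _ fun k _ => by positivity

end Pool.Agent.U618.SP
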