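import Mathlib
import Pool.Agent.U618.SP.Fin

/-!
# Self powers in sequential random sets: the asymptotic formula for the sieve profile (helper618)

`step_low` and `step_high` are copied from `Pool.Agent.U441.MS.Mh` (helper441).
-/

set_option autoImplicit false
set_option linter.unusedSectionVars false

open MeasureTheory Filter
open scoped Topology

namespace Pool.Agent.U618.SP

lemma step_low {n : ℕ} (hn : 2 ≤ n) :
    Real.log (Real.log ((n + 1 : ℕ) : ℝ)) - Real.log (Real.log n) ≤ 1 / (n * Real.log n) := by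
  have hn' : (2 : ℝ) ≤ n := by exact_mod_cast hn
  have hl : 0 < Real.log n := Real.log_pos (by linarith)
  have hl1 : 0 < Real.log ((n + 1 : ℕ) : ℝ) := Real.log_pos (by push_cast; linarith)
  rw [← Real.log_div hl1.ne' hl.ne']
  have h1 := Real.log_le_sub_one_of_pos (div_pos hl1 hl)
  have h2 : Real.log ((n + 1 : ℕ) : ℝ) - Real.log n ≤ 1 / n := by
    rw [← Real.log_div (by positivity) (by positivity)]
    have h3 := Real.log_le_sub_one_of_pos (x := ((n + 1 : ℕ) : ℝ) / n) (by positivity)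
    have h4 : ((n + 1 : ℕ) : ℝ) / n - 1 = 1 / n := by
      push_cast
      field_simp
      ring
    linarith
  calc Real.log (Real.log ((n + 1 : ℕ) : ℝ) / Real.log n)
      ≤ (Real.log ((n + 1 : ℕ) : ℝ) - Real.log n) / Real.log n := by
        rw [sub_div, div_self hl.ne']; exact h1
    _ ≤ (1 / n) / Real.log n := by gcongr
    _ = 1 / (n * Real.log n) := by rw [div_div]

lemma step_high {n : ℕ} (hn : 2 ≤ n) :
    1 / (((n + 1 : ℕ) : ℝ) * Real.log ((n + 1 : ℕ) : ℝ)) ≤
      Real.log (Real.log ((n + 1 : ℕ) : ℝ)) - Real.log (Real.log n) := by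
  have hn' : (2 : ℝ) ≤ n := by exact_mod_cast hn
  have hl : 0 < Real.log n := Real.log_pos (by linarith)
  have hl1 : 0 < Real.log ((n + 1 : ℕ) : ℝ) := Real.log_pos (by push_cast; linarith)
  have h1 := Real.log_le_sub_one_of_pos (div_pos hl hl1)
  rw [Real.log_div hl.ne' hl1.ne'] at h1
  have h2 : 1 / ((n + 1 : ℕ) : ℝ) ≤ Real.log ((n + 1 : ℕ) : ℝ) - Real.log n := by
    have h3 := Real.log_le_sub_one_of_pos (x := (n : ℝ) / ((n + 1 : ℕ) : ℝ)) (by positivity)
    rw [Real.log_div (by positivity) (by positivity)] at h3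
    have h4 : (n : ℝ) / ((n + 1 : ℕ) : ℝ) - 1 = -(1 / ((n + 1 : ℕ) : ℝ)) := by
      push_cast
      field_simp
      ring
    linarith
  have h5 : 1 / (((n + 1 : ℕ) : ℝ) * Real.log ((n + 1 : ℕ) : ℝ)) =
      (1 / ((n + 1 : ℕ) : ℝ)) / Real.log ((n + 1 : ℕ) : ℝ) := by rw [div_div]
  rw [h5]
  calc (1 / ((n + 1 : ℕ) : ℝ)) / Real.log ((n + 1 : ℕ) : ℝ)
      ≤ (Real.log ((n + 1 : ℕ) : ℝ) - Real.log n) / Real.log ((n + 1 : ℕ) : ℝ) := by gcongr
    _ = 1 - Real.log n / Real.log ((n + 1 : ℕ) : ℝ) := by rw [sub_div, div_self hl1.ne']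
    _ ≤ _ := by linarith

/-- `1 / ((k + 2) log (k + 2))` -/
noncomputable def f (k : ℕ) : ℝ := 1 / (((k + 2 : ℕ) : ℝ) * Real.log ((k + 2 : ℕ) : ℝ))

lemma lpos (k : ℕ) : 0 < Real.log ((k + 2 : ℕ) : ℝ) :=
  Real.log_pos (by exact_mod_cast (by omega : 1 < k + 2))

lemma f_pos (k : ℕ) : 0 < f k := by
  unfold f
  have := lpos k
  positivity

lemma f_anti : Antitone f := by
  intro a b hab
  unfold f
  have h1 := lpos a
  have h2 : ((a + 2 : ℕ) : ℝ) ≤ ((b + 2 : ℕ) : ℝ) := by exact_mod_cast (by omega : a + 2 ≤ b + 2)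
  have h3 : Real.log ((a + 2 : ℕ) : ℝ) ≤ Real.log ((b + 2 : ℕ) : ℝ) := Real.log_le_log (by positivity) h2
  apply one_div_le_one_div_of_le (by positivity)
  gcongr

lemma loglog_tendsto : Tendsto (fun N : ℕ => Real.log (Real.log N)) atTop atTop :=
  Real.tendsto_log_atTop.comp (Real.tendsto_log_atTop.comp tendsto_natCast_atTop_atTop)

lemma f_zero : Tendsto f atTop (𝓝 0) := by
  have h1 : Tendsto (fun k : ℕ => ((k + 2 : ℕ) : ℝ) * Real.log ((k + 2 : ℕ) : ℝ)) atTop atTop := by
    have h2 : Tendsto (fun k : ℕ => ((k + 2 : ℕ) : ℝ)) atTop atTop :=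
      tendsto_natCast_atTop_atTop.comp (tendsto_add_atTop_nat 2)
    exact h2.atTop_mul_atTop₀ (Real.tendsto_log_atTop.comp h2)
  exact h1.const_div_atTop 1

/-- `∑ f = log log + O(1)` -/
lemma f_sum : ∃ B : ℝ, ∀ n : ℕ, |∑ k ∈ Finset.range n, f k - Real.log (Real.log ((n + 2 : ℕ) : ℝ))| ≤ B := by
  set D : ℝ := - Real.log (Real.log 2) with hD
  have hlo : ∀ n : ℕ, D ≤ ∑ k ∈ Finset.range n, f k - Real.log (Real.log ((n + 2 : ℕ) : ℝ)) := by
    intro n
    induction n with
    | zero => simp [hD]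
    | succ n ih =>
      rw [Finset.sum_range_succ]
      have h := step_low (n := n + 2) (by omega)
      have e : n + 2 + 1 = n + 1 + 2 := by omega
      rw [e] at h
      have h' : f n = 1 / (((n + 2 : ℕ) : ℝ) * Real.log ((n + 2 : ℕ) : ℝ)) := rfl
      linarith
  have hup : ∀ n : ℕ, ∑ k ∈ Finset.range n, f k - Real.log (Real.log ((n + 2 : ℕ) : ℝ)) ≤ D + f 0 - f n := by
    intro n
    induction n with
    | zero => simp [hD]
    | succ n ih =>
      rw [Finset.sum_range_succ]
      have h := step_high (n := n + 2) (by omega)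
      have e : n + 2 + 1 = n + 1 + 2 := by omega
      rw [e] at h
      have h' : f (n + 1) = 1 / (((n + 1 + 2 : ℕ) : ℝ) * Real.log ((n + 1 + 2 : ℕ) : ℝ)) := rfl
      linarith
  refine ⟨|D| + f 0, fun n => ?_⟩
  have h0 := f_pos 0
  have hn := f_pos n
  rw [abs_le]
  constructor
  · linarith [hlo n, neg_abs_le D]
  · linarith [hup n, le_abs_self D]

open Classical in
/-- `∑ f` over a periodic set -/
lemma per_sum (p : ℕ → Prop) (L : ℕ) (hL : 0 < L) (hp : ∀ k, p (k + L) ↔ p k) :
    ∃ B : ℝ, ∀ n : ℕ, |∑ k ∈ Finset.range n, (f k * if p k then 1 else 0) -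
      (Nat.count p L : ℝ) / L * ∑ k ∈ Finset.range n, f k| ≤ B := by
  set δ : ℝ := (Nat.count p L : ℝ) / L with hδ
  have hL' : (0 : ℝ) < L := by exact_mod_cast hL
  have hcL : ∀ n, (Nat.count p (L + n) : ℝ) = Nat.count p L + Nat.count p n := by
    intro n
    rw [Nat.count_add]
    push_cast
    congr 2
    congr 1
    funext k
    rw [add_comm L k]
    exact propext (hp k)
  have he : ∀ n, (Nat.count p (L + n) : ℝ) - δ * ((L + n : ℕ) : ℝ) = Nat.count p n - δ * n := by
    intro n
    rw [hcL]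
    push_cast
    have : δ * L = Nat.count p L := by
      rw [hδ]
      field_simp
    linarith
  have he2 : ∀ q r, (Nat.count p (L * q + r) : ℝ) - δ * ((L * q + r : ℕ) : ℝ) = Nat.count p r - δ * r := by
    intro q r
    induction q with
    | zero => simp
    | succ q ih =>
      have e : L * (q + 1) + r = L + (L * q + r) := by ring
      rw [e, he, ih]
  set C : ℝ := ∑ i ∈ Finset.range L, |(Nat.count p i : ℝ) - δ * i| with hC
  have hb : ∀ n, |(Nat.count p n : ℝ) - δ * n| ≤ C := by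
    intro n
    have e := he2 (n / L) (n % L)
    rw [Nat.div_add_mod] at e
    rw [e]
    exact Finset.single_le_sum (f := fun i => |(Nat.count p i : ℝ) - δ * i|) (fun i _ => abs_nonneg _)
      (Finset.mem_range.2 (Nat.mod_lt n hL))
  have hz : ∀ n, ‖∑ i ∈ Finset.range n, ((if p i then (1 : ℝ) else 0) - δ)‖ ≤ C := by
    intro n
    have e : ∑ i ∈ Finset.range n, ((if p i then (1 : ℝ) else 0) - δ) = (Nat.count p n : ℝ) - δ * n := by
      rw [Finset.sum_sub_distrib, Finset.sum_boole, Finset.sum_const, Finset.card_range, nsmul_eq_mul,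
        Nat.count_eq_card_filter_range]
      ring
    rw [e, Real.norm_eq_abs]
    exact hb n
  have hcs := f_anti.cauchySeq_series_mul_of_tendsto_zero_of_bounded f_zero hz
  obtain ⟨B, hB⟩ := hcs.isBounded_range.exists_norm_le
  refine ⟨B, fun n => ?_⟩
  have h1 := hB _ ⟨n, rfl⟩
  rw [Real.norm_eq_abs] at h1
  refine le_trans (le_of_eq ?_) h1
  congr 1
  rw [Finset.mul_sum, ← Finset.sum_sub_distrib]
  refine Finset.sum_congr rfl fun k _ => ?_
  rw [smul_eq_mul]
  ring

/-- the density of a periodic set -/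
lemma per_dens (p : ℕ → Prop) [DecidablePred p] (L : ℕ) (hL : 0 < L) (hp : ∀ k, p (k + L) ↔ p k) :
    Tendsto (fun n : ℕ => (Nat.count p n : ℝ) / n) atTop (𝓝 ((Nat.count p L : ℝ) / L)) := by
  set δ : ℝ := (Nat.count p L : ℝ) / L with hδ
  have hL' : (0 : ℝ) < L := by exact_mod_cast hL
  have hcL : ∀ n, (Nat.count p (L + n) : ℝ) = Nat.count p L + Nat.count p n := by
    intro n
    rw [Nat.count_add]
    push_cast
    congr 2
    simp only [add_comm L, hp]
  have he : ∀ n, (Nat.count p (L + n) : ℝ) - δ * ((L + n : ℕ) : ℝ) = Nat.count p n - δ * n := by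
    intro n
    rw [hcL]
    push_cast
    have : δ * L = Nat.count p L := by
      rw [hδ]
      field_simp
    linarith
  have he2 : ∀ q r, (Nat.count p (L * q + r) : ℝ) - δ * ((L * q + r : ℕ) : ℝ) = Nat.count p r - δ * r := by
    intro q r
    induction q with
    | zero => simp
    | succ q ih =>
      have e : L * (q + 1) + r = L + (L * q + r) := by ring
      rw [e, he, ih]
  set C : ℝ := ∑ i ∈ Finset.range L, |(Nat.count p i : ℝ) - δ * i| with hC
  have hb : ∀ n, |(Nat.count p n : ℝ) - δ * n| ≤ C := by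
    intro n
    have e := he2 (n / L) (n % L)
    rw [Nat.div_add_mod] at e
    rw [e]
    exact Finset.single_le_sum (f := fun i => |(Nat.count p i : ℝ) - δ * i|) (fun i _ => abs_nonneg _)
      (Finset.mem_range.2 (Nat.mod_lt n hL))
  have h1 : Tendsto (fun n : ℕ => (Nat.count p n : ℝ) / n - δ) atTop (𝓝 0) := by
    refine squeeze_zero_norm' ?_ (tendsto_natCast_atTop_atTop.const_div_atTop C)
    filter_upwards [eventually_gt_atTop 0] with n hn
    have hn' : (0 : ℝ) < n := by exact_mod_cast hn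
    rw [Real.norm_eq_abs, show (Nat.count p n : ℝ) / n - δ = ((Nat.count p n : ℝ) - δ * n) / n by
      field_simp, abs_div, abs_of_pos hn']
    exact div_le_div_of_nonneg_right (hb n) hn'.le
  simpa using h1.add_const δ

end Pool.Agent.U618.SP
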