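import Mathlib
import Pool.Agent.U618.SP.Asy

/-!
# Self powers in sequential random sets: the asymptotic formula for the sieve profile, end (helper618)
-/

set_option autoImplicit false
set_option linter.unusedSectionVars false

open MeasureTheory Filter
open scoped Topology

namespace Pool.Agent.U618.SP

/-- `m ^ m + 1`, `m = k + 1`, has no prime factor in `Q` -/
def Fr (Q : Finset ℕ) (k : ℕ) : Prop := ∀ q ∈ Q, ¬ q ∣ N k

/-- the period -/
def Lq (Q : Finset ℕ) : ℕ := ∏ q ∈ Q, (q * (q - 1))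

lemma Lq_pos {Q : Finset ℕ} (hQ : ∀ p ∈ Q, p.Prime) : 0 < Lq Q :=
  Finset.prod_pos fun q hq => Nat.mul_pos (hQ q hq).pos (Nat.sub_pos_of_lt (hQ q hq).one_lt)

lemma dvd_Lq {Q : Finset ℕ} {q : ℕ} (hq : q ∈ Q) : q * (q - 1) ∣ Lq Q :=
  Finset.dvd_prod_of_mem (fun q => q * (q - 1)) hq

lemma Fr_per {Q : Finset ℕ} (hQ : ∀ p ∈ Q, p.Prime) (k : ℕ) : Fr Q (k + Lq Q) ↔ Fr Q k := by
  unfold Fr
  refine forall₂_congr fun q hq => not_congr ?_
  have hqp := hQ q hq
  have h1 : q ∣ Lq Q := (dvd_mul_right q (q - 1)).trans (dvd_Lq hq)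
  have h2 : q - 1 ∣ Lq Q := (dvd_mul_left (q - 1) q).trans (dvd_Lq hq)
  have key : (k + Lq Q + 1) ^ (k + Lq Q + 1) ≡ (k + 1) ^ (k + 1) [MOD q] := by
    have h3 : k + Lq Q + 1 ≡ k + 1 [MOD q] := by
      have : Lq Q ≡ 0 [MOD q] := (Nat.modEq_zero_iff_dvd).2 h1
      have h4 := (this.add_left (k + 1))
      rwa [show k + 1 + Lq Q = k + Lq Q + 1 by ring, add_zero] at h4
    have h5 : (k + Lq Q + 1) ^ (k + Lq Q + 1) ≡ (k + 1) ^ (k + Lq Q + 1) [MOD q] := h3.pow _
    refine h5.trans ?_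
    by_cases h6 : q ∣ k + 1
    · have h7 : ∀ e, 0 < e → (k + 1) ^ e ≡ 0 [MOD q] := fun e he =>
        (Nat.modEq_zero_iff_dvd).2 (h6.trans (dvd_pow_self _ he.ne'))
      exact (h7 _ (by omega)).trans (h7 _ (by omega)).symm
    · have hc : Nat.Coprime (k + 1) q := ((Nat.Prime.coprime_iff_not_dvd hqp).2 h6).symm
      have h8 : (k + 1) ^ Lq Q ≡ 1 [MOD q] := by
        obtain ⟨t, ht⟩ := h2
        have h9 := Nat.ModEq.pow_totient hc
        rw [Nat.totient_prime hqp] at h9
        have h10 := h9.pow t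
        rwa [one_pow, ← pow_mul, ← ht] at h10
      have h11 := h8.mul_left ((k + 1) ^ (k + 1))
      rwa [mul_one, ← pow_add, show k + 1 + Lq Q = k + Lq Q + 1 by ring] at h11
  have key2 : N (k + Lq Q) ≡ N k [MOD q] := key.add_right 1
  rw [← Nat.modEq_zero_iff_dvd, ← Nat.modEq_zero_iff_dvd]
  exact ⟨fun h => key2.symm.trans h, fun h => key2.trans h⟩

open Classical in
lemma cnt_pos {Q : Finset ℕ} (hQ : ∀ p ∈ Q, p.Prime) : 0 < Nat.count (Fr Q) (Lq Q) := by
  have hL := Lq_pos hQ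
  obtain ⟨l, hl⟩ : ∃ l, Lq Q = l + 1 := ⟨Lq Q - 1, by omega⟩
  rw [hl, Nat.count_succ]
  have : Fr Q l := by
    intro q hq h
    unfold N at h
    rw [← hl] at h
    have h1 : q ∣ Lq Q := (dvd_mul_right q (q - 1)).trans (dvd_Lq hq)
    have h2 : q ∣ Lq Q ^ Lq Q := h1.trans (dvd_pow_self _ hL.ne')
    have h3 : q ∣ 1 := (Nat.dvd_add_right h2).1 h
    exact (hQ q hq).one_lt.ne' (Nat.dvd_one.1 h3)
  rw [if_pos this]
  omega

open Classical in
lemma shift_count {Q : Finset ℕ} (hQ : ∀ p ∈ Q, p.Prime) :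
    Nat.count (fun k => Fr Q (k + 1)) (Lq Q) = Nat.count (Fr Q) (Lq Q) := by
  have h1 : Nat.count (Fr Q) (1 + Lq Q) = Nat.count (Fr Q) 1 + Nat.count (fun k => Fr Q (1 + k)) (Lq Q) :=
    Nat.count_add ..
  have h2 : Nat.count (Fr Q) (Lq Q + 1) = Nat.count (Fr Q) (Lq Q) + Nat.count (fun k => Fr Q (Lq Q + k)) 1 :=
    Nat.count_add ..
  have h3 : Nat.count (fun k => Fr Q (Lq Q + k)) 1 = Nat.count (Fr Q) 1 := by
    congr 1
    funext k
    rw [add_comm]
    exact propext (Fr_per hQ k)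
  have h4 : Nat.count (fun k => Fr Q (1 + k)) (Lq Q) = Nat.count (fun k => Fr Q (k + 1)) (Lq Q) := by
    congr 1
    funext k
    rw [add_comm]
  rw [add_comm 1 (Lq Q)] at h1
  omega

/-- the constant -/
noncomputable def WQ (Q : Finset ℕ) : ℝ := ∏ p ∈ Q, (1 - 1 / (p : ℝ))⁻¹

open Classical in
/-- the density of the free `m ^ m + 1` -/
noncomputable def dQ (Q : Finset ℕ) : ℝ := (Nat.count (Fr Q) (Lq Q) : ℝ) / Lq Q

lemma prof_bd {m : ℕ} (hm : 2 ≤ m) :
    (m : ℝ) * Real.log m ≤ Real.log ((m ^ m + 1 : ℕ) : ℝ) ∧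
      Real.log ((m ^ m + 1 : ℕ) : ℝ) ≤ (m : ℝ) * Real.log m + 1 := by
  have hm' : (2 : ℝ) ≤ m := by exact_mod_cast hm
  have h1 : (1 : ℝ) ≤ (m : ℝ) ^ m := one_le_pow₀ (by linarith)
  have h2 : (m : ℝ) * Real.log m = Real.log ((m : ℝ) ^ m) := by rw [Real.log_pow]
  rw [h2]
  push_cast
  constructor
  · exact Real.log_le_log (by linarith) (by linarith)
  · have h3 : Real.log ((m : ℝ) ^ m + 1) ≤ Real.log (2 * (m : ℝ) ^ m) :=
      Real.log_le_log (by linarith) (by linarith)
    rw [Real.log_mul (by norm_num) (by linarith)] at h3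
    have h4 := Real.log_two_lt_d9
    linarith

open Classical in
lemma prof_close {Q : Finset ℕ} (hQ : ∀ p ∈ Q, p.Prime) :
    (fun k => prof Q (N (k + 1)) - WQ Q * (f k * if Fr Q (k + 1) then 1 else 0)) =o[atTop] f := by
  rw [Asymptotics.isLittleO_iff]
  intro ε hε
  have hW : 1 ≤ WQ Q := W_one hQ
  have h1 : ∀ᶠ k in atTop, f k < min 1 ε / WQ Q :=
    f_zero.eventually_lt_const (div_pos (lt_min one_pos hε) (by linarith))
  filter_upwards [h1] with k hk
  have hf := f_pos k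
  rw [Real.norm_eq_abs, Real.norm_eq_abs, abs_of_pos hf]
  have hk1 : WQ Q * f k ≤ min 1 ε := by
    rw [lt_div_iff₀ (by linarith)] at hk
    linarith
  by_cases h : Fr Q (k + 1)
  · have e : prof Q (N (k + 1)) = min 1 (WQ Q / Real.log ((N (k + 1) : ℕ) : ℝ)) := by
      unfold prof
      exact if_pos h
    rw [e, if_pos h, mul_one]
    obtain ⟨h2, h3⟩ := prof_bd (m := k + 2) (by omega)
    have eN : (N (k + 1) : ℕ) = (k + 2) ^ (k + 2) + 1 := rfl
    rw [eN]
    set l := Real.log (((k + 2) ^ (k + 2) + 1 : ℕ) : ℝ) with hl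
    set y := ((k + 2 : ℕ) : ℝ) * Real.log ((k + 2 : ℕ) : ℝ) with hy
    have hy0 : 0 < y := by
      have := lpos k
      rw [hy]
      positivity
    have hf' : f k = 1 / y := rfl
    have hl0 : 0 < l := by linarith
    have h4 : WQ Q / l ≤ WQ Q * f k := by
      rw [hf', mul_one_div]
      exact div_le_div_of_nonneg_left (by linarith) hy0 h2
    rw [min_eq_right (h4.trans (hk1.trans (min_le_left _ _)))]
    rw [abs_sub_comm, abs_of_nonneg (by linarith)]
    have h5 : WQ Q * f k - WQ Q / l = WQ Q * (f k * ((l - y) * (1 / l))) := by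
      rw [hf']
      field_simp
    rw [h5]
    have h6 : (l - y) * (1 / l) ≤ f k := by
      rw [hf']
      calc (l - y) * (1 / l) ≤ 1 * (1 / l) := by
            apply mul_le_mul_of_nonneg_right (by linarith) (by positivity)
        _ ≤ 1 / y := by
            rw [one_mul]
            exact one_div_le_one_div_of_le hy0 h2
    calc WQ Q * (f k * ((l - y) * (1 / l))) ≤ WQ Q * (f k * f k) := by gcongr
      _ = (WQ Q * f k) * f k := by ring
      _ ≤ ε * f k := by
          apply mul_le_mul_of_nonneg_right (hk1.trans (min_le_right _ _)) hf.le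
  · have e : prof Q (N (k + 1)) = 0 := by
      unfold prof
      exact if_neg h
    rw [e, if_neg h]
    simp
    positivity

lemma f_sum_tendsto : Tendsto (fun n => ∑ k ∈ Finset.range n, f k) atTop atTop := by
  obtain ⟨B, hB⟩ := f_sum
  have h1 := tendsto_atTop_add_const_right atTop (-B) (loglog_tendsto.comp (tendsto_add_atTop_nat 2))
  refine tendsto_atTop_mono (fun n => ?_) h1
  have := (abs_le.1 (hB n)).1
  simp only [Function.comp]
  linarith

open Classical in
lemma prof_sum {Q : Finset ℕ} (hQ : ∀ p ∈ Q, p.Prime) :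
    Tendsto (fun n => (∑ k ∈ Finset.range n, prof Q (N (k + 1))) / ∑ k ∈ Finset.range n, f k) atTop
      (𝓝 (dQ Q * WQ Q)) := by
  have h1 := (prof_close hQ).sum_range (fun k => (f_pos k).le) f_sum_tendsto
  have h2 := h1.tendsto_div_nhds_zero
  obtain ⟨B, hB⟩ := per_sum (fun k => Fr Q (k + 1)) (Lq Q) (Lq_pos hQ) (fun k => by
    have := Fr_per hQ (k + 1)
    rwa [show k + 1 + Lq Q = k + Lq Q + 1 by ring] at this)
  have h3 : Tendsto (fun n => (∑ k ∈ Finset.range n, (f k * if Fr Q (k + 1) then 1 else 0)) /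
      (∑ k ∈ Finset.range n, f k) - dQ Q) atTop (𝓝 0) := by
    refine squeeze_zero_norm' ?_ (f_sum_tendsto.const_div_atTop B)
    filter_upwards [f_sum_tendsto.eventually_gt_atTop 0] with n hn
    rw [Real.norm_eq_abs]
    have e : (∑ k ∈ Finset.range n, (f k * if Fr Q (k + 1) then 1 else 0)) /
        (∑ k ∈ Finset.range n, f k) - dQ Q = (∑ k ∈ Finset.range n, (f k * if Fr Q (k + 1) then 1 else 0) -
          (Nat.count (fun k => Fr Q (k + 1)) (Lq Q) : ℝ) / Lq Q * ∑ k ∈ Finset.range n, f k) /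
          ∑ k ∈ Finset.range n, f k := by
      rw [shift_count hQ, sub_div, mul_div_assoc, div_self hn.ne', mul_one]
      rfl
    rw [e, abs_div, abs_of_pos hn]
    exact div_le_div_of_nonneg_right (hB n) hn.le
  have h4 := (h3.add_const (dQ Q)).const_mul (WQ Q)
  have h5 := h2.add h4
  rw [zero_add, zero_add, mul_comm (WQ Q)] at h5
  refine h5.congr fun n => ?_
  rw [Finset.sum_sub_distrib, ← Finset.mul_sum, sub_add_cancel, ← mul_div_assoc, ← add_div]
  congr 1
  ring

/-- **the mean is `~ δ W log log x`** -/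
theorem mean_asy {Q : Finset ℕ} (hQ : ∀ p ∈ Q, p.Prime) :
    Tendsto (fun x : ℕ => mean (prof Q) Set.univ x / Real.log (Real.log x)) atTop (𝓝 (dQ Q * WQ Q)) := by
  rw [← tendsto_add_atTop_iff_nat 2]
  have h1 := prof_sum hQ
  have hS := f_sum_tendsto
  obtain ⟨B, hB⟩ := f_sum
  have hll : Tendsto (fun n : ℕ => Real.log (Real.log ((n + 2 : ℕ) : ℝ))) atTop atTop :=
    loglog_tendsto.comp (tendsto_add_atTop_nat 2)
  have h2 : Tendsto (fun n => (∑ k ∈ Finset.range n, f k) / Real.log (Real.log ((n + 2 : ℕ) : ℝ)) - 1)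
      atTop (𝓝 0) := by
    refine squeeze_zero_norm' ?_ (hll.const_div_atTop B)
    filter_upwards [hll.eventually_gt_atTop 0] with n hn
    rw [Real.norm_eq_abs, show (∑ k ∈ Finset.range n, f k) / Real.log (Real.log ((n + 2 : ℕ) : ℝ)) - 1 =
      ((∑ k ∈ Finset.range n, f k) - Real.log (Real.log ((n + 2 : ℕ) : ℝ))) /
        Real.log (Real.log ((n + 2 : ℕ) : ℝ)) by rw [sub_div, div_self hn.ne'], abs_div, abs_of_pos hn]
    exact div_le_div_of_nonneg_right (hB n) hn.le
  have h3 : Tendsto (fun n => (prof Q (N 0) + prof Q (N (n + 1))) / ∑ k ∈ Finset.range n, f k) atTop (𝓝 0) := by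
    refine squeeze_zero_norm' ?_ (hS.const_div_atTop 2)
    filter_upwards [hS.eventually_gt_atTop 0] with n hn
    have hle : ∀ m, prof Q m ≤ 1 := by
      intro m
      unfold prof
      split_ifs
      · exact min_le_left _ _
      · exact zero_le_one
    have h0 := prof_nonneg hQ (N 0)
    have h0' := prof_nonneg hQ (N (n + 1))
    rw [Real.norm_eq_abs, abs_of_nonneg (div_nonneg (by linarith) hn.le)]
    apply div_le_div_of_nonneg_right _ hn.le
    linarith [hle (N 0), hle (N (n + 1))]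
  have h4 := (h1.add h3).mul (h2.add_const 1)
  rw [zero_add, add_zero, mul_one] at h4
  refine (h4.congr' ?_)
  filter_upwards [hS.eventually_gt_atTop 0] with n hn
  have e : mean (prof Q) Set.univ (n + 2) =
      (∑ k ∈ Finset.range n, prof Q (N (k + 1))) + (prof Q (N 0) + prof Q (N (n + 1))) := by
    rw [mean_eq]
    simp only [Set.mem_univ, if_true]
    rw [Finset.sum_range_succ, Finset.sum_range_succ']
    ring
  rw [e, sub_add_cancel, ← add_div]
  field_simp

end Pool.Agent.U618.SP
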